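import Pool.Agent.H30.VX.Targets
import Pool.Agent.H35.VR.BLB

/-!
# Row BL2 of the board `vex_modules` (MP_d32443_co)
-/

set_option autoImplicit false

open Finset Pool.Agent.H48.CE Pool.Agent.H30.VR Pool.Agent.H30.VX Pool.Agent.H35.VR

namespace Pool.Agent.H23.VX

theorem pf_BL2 (hST2 : T_ST2) (hMWS : T_MWS) (hSPL : T_SPL) : T_BL2 := by
  classical
  intro ε hε hε1
  obtain ⟨d, hd, hd1, hST2⟩ := hST2 ε hε hε1
  refine ⟨d, hd, hd1, ?_⟩
  intro b hb
  obtain ⟨L, hL, hL2, hL3⟩ := exists_L (ε / 100) (by positivity)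
  have hLb : 1 ≤ L * b := Nat.one_le_iff_ne_zero.2 (by positivity)
  have hr2 : 2 ≤ 2 * L * b := by nlinarith
  obtain ⟨γ, k₀, hγ, hST2⟩ := hST2 (2 * L * b) hr2
  have hLr : (0 : ℝ) < L := by exact_mod_cast hL
  obtain ⟨T₀, hT₀⟩ : ∃ T₀ : ℕ, T₀ = ⌈(L : ℝ) / γ⌉₊ := ⟨_, rfl⟩
  refine ⟨2 * L * b, T₀, max (max k₀ 1) ⌈2 * (T₀ : ℝ) / (0.075 * ε)⌉₊, γ, hγ, ?_⟩
  intro k hk V _ G hG hV he
  have hk0 : k₀ ≤ k := (le_max_left _ _).trans ((le_max_left _ _).trans hk)
  have hk1 : 1 ≤ k := (le_max_right _ _).trans ((le_max_left _ _).trans hk)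
  have hk2 : 2 * (T₀ : ℝ) / (0.075 * ε) ≤ k :=
    (Nat.le_ceil _).trans (by exact_mod_cast (le_max_right _ _).trans hk)
  have hkr : (1 : ℝ) ≤ k := by exact_mod_cast hk1
  have hkpos : (0 : ℝ) < k := by linarith
  set K : ℝ := (1 + ε / 4) * k with hK
  have hK0 : 0 < K := by positivity
  have hKk : (k : ℝ) ≤ K := by rw [hK]; nlinarith
  set F : Set (Finset V × Finset V) := {q | (∀ v ∈ q.1, v ∉ q.2) ∧ q.2.card = q.1.card ∧
    ∃ t : ℕ, q.1.card = 2 * L * b * t ∧ γ * k ≤ t ∧ (q.1.card : ℝ) ≤ ε / 100 * k ∧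
      LR G d t q.1 q.2} with hF
  have hrr : (2 : ℝ) ≤ ((2 * L * b : ℕ) : ℝ) := by exact_mod_cast hr2
  obtain ⟨T, p, hpF, hTg, hs1, hs2⟩ := hMWS F K (ε / 100) γ L hK0 (by positivity)
    (by linarith) hγ hL hL2 hL3 (by
      rintro q ⟨q1, q2, t, q3, q4, q5, -⟩
      refine ⟨q1, q2, ?_, ?_⟩
      · have h1 : (q.1.card : ℝ) = ((2 * L * b : ℕ) : ℝ) * t := by
          rw [q3]
          push_cast
          ring
        rw [h1, hK]
        have h2 : γ * ((1 + ε / 4) * k) ≤ 2 * (γ * k) := by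
          have : 0 ≤ γ * k := by positivity
          nlinarith
        have h3 : 2 * (γ * k) ≤ ((2 * L * b : ℕ) : ℝ) * t :=
          mul_le_mul hrr q4 (by positivity) (by positivity)
        linarith
      · have h1 : ε / 100 * k ≤ ε / 100 * K := mul_le_mul_of_nonneg_left hKk (by positivity)
        linarith) (by
      intro w hw hwK
      obtain ⟨A, B, t, a1, a2, a3, a4, a5, a6, a7⟩ := hST2 k hk0 G hG hV w hw (he w hw hwK)
      exact ⟨(A, B), ⟨a1, by rw [a2, a3], t, a2, a4, a5, a6⟩, a7⟩)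
  obtain ⟨s, S, hS1, hS2, hsum⟩ := blb_core hSPL T L hL K (ε / 100) p (fun j => (hpF j).1)
    (fun j => (hpF j).2.1) hs1 hs2
  have hTT : T ≤ T₀ := by
    have h1 : (T : ℝ) ≤ L / γ := by
      rw [le_div_iff₀ hγ]
      exact hTg
    have h2 : (T : ℝ) ≤ T₀ := by
      rw [hT₀]
      exact h1.trans (Nat.le_ceil _)
    exact_mod_cast h2
  set Gd : Finset (Fin T) := univ.filter (fun j => (p j).1.card ≤ 2 * L * s j) with hGd
  have hcd : Gd.card ≤ T := by
    have := card_filter_le (univ : Finset (Fin T)) (fun j => (p j).1.card ≤ 2 * L * s j)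
    rwa [card_univ, Fintype.card_fin] at this
  choose tt ht1 ht2 ht3 ht4 using fun j => (hpF j).2.2
  let e := Gd.equivFin
  refine ⟨Gd.card, fun i => S ((e.symm i).1, false), fun i => S ((e.symm i).1, true),
    fun i => tt (e.symm i).1, hcd.trans hTT, ?_, ?_, ?_⟩
  · intro i
    have hg : (p (e.symm i).1).1.card ≤ 2 * L * s (e.symm i).1 :=
      (mem_filter.1 (e.symm i).2).2
    set j := (e.symm i).1 with hj
    obtain ⟨a1, a2, a3, a4⟩ := hS1 j
    have hle : s j ≤ (p j).1.card := by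
      rw [← a3]
      exact card_le_card a1
    refine ⟨fun v hv hv' => (hpF j).1 v (a1 hv) (a2 hv'), by rw [a3, a4], ?_, ?_, ht2 j, ?_, ?_⟩
    · show b * tt j ≤ (S (j, false)).card
      rw [a3]
      rw [ht1 j] at hg
      have h1 : (2 * L) * (b * tt j) ≤ (2 * L) * s j := by
        calc (2 * L) * (b * tt j) = 2 * L * b * tt j := by ring
          _ ≤ _ := hg
      exact Nat.le_of_mul_le_mul_left h1 (by positivity)
    · show (S (j, false)).card ≤ 2 * L * b * tt j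
      rw [a3, ← ht1 j]
      exact hle
    · show ((S (j, false)).card : ℝ) ≤ ε / 100 * k
      rw [a3]
      have h1 : (s j : ℝ) ≤ (p j).1.card := by exact_mod_cast hle
      linarith [ht3 j]
    · intro A' hA' B' hB' h1 h2
      exact ht4 j A' (hA'.trans a1) B' (hB'.trans a2) h1 h2
  · intro i j hij v hv
    have hne : (e.symm i).1 ≠ (e.symm j).1 := by
      intro h
      exact hij (e.symm.injective (Subtype.ext h))
    have key : ∀ a c : Bool, ((e.symm i).1, a) ≠ ((e.symm j).1, c) := by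
      intro a c h
      exact hne (Prod.mk.inj h).1
    rcases hv with hv | hv
    · exact ⟨hS2 _ _ (key _ _) v hv, hS2 _ _ (key _ _) v hv⟩
    · exact ⟨hS2 _ _ (key _ _) v hv, hS2 _ _ (key _ _) v hv⟩
  · have h1 : ∑ i : Fin Gd.card, ((S ((e.symm i).1, false)).card : ℝ) = ∑ j ∈ Gd, (s j : ℝ) := by
      have h2 : ∑ i : Fin Gd.card, ((S ((e.symm i).1, false)).card : ℝ) =
          ∑ j : Gd, ((s j.1 : ℕ) : ℝ) := by
        rw [← e.symm.sum_comp]
        refine sum_congr rfl fun i _ => ?_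
        rw [(hS1 (e.symm i).1).2.2.1]
      rw [h2, sum_coe_sort Gd (fun j => ((s j : ℕ) : ℝ))]
    rw [h1]
    have hTr : (T : ℝ) ≤ T₀ := by exact_mod_cast hTT
    have h3 : 2 * (T₀ : ℝ) ≤ k * (0.075 * ε) := by
      rwa [div_le_iff₀ (by positivity)] at hk2
    have h4 : (1 + ε / 8) * k ≤ (1 - 4 * (ε / 100)) * K - 2 * T := by
      rw [hK]
      have h5 : 0 ≤ ε * (1 - ε) * k := by
        have : 0 ≤ 1 - ε := by linarith
        positivity
      nlinarith
    exact h4.trans hsum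

end Pool.Agent.H23.VX
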