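import Pool.Agent.H30.VX.Targets

/-!
# Row CT2 of the board `vex_modules` (MP_d32443_co)
-/

set_option autoImplicit false

open Finset Pool.Agent.H48.CE Pool.Agent.H30.VR Pool.Agent.H30.VX

namespace Pool.Agent.H23.VX

theorem ff_mono (hFFA : T_FFA) {k : ℕ} (hk : 1 ≤ k) {m n : ℕ} (hm : 1 ≤ m) (h : m ≤ n) :
    ff k m ≤ ff k n := by
  induction n, h using Nat.le_induction with
  | base => exact le_rfl
  | succ n hn ih => exact ih.trans (hFFA k n hk (by omega)).1.le

/-- most vertices are adjacent to almost everything -/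
theorem ct2_core {V : Type} [Fintype V] (G : SimpleGraph V) (ε : ℝ) (k : ℕ) (hε : 0 < ε)
    (hk : 1 ≤ k) (hm : (2 - ε ^ 2 / 100) * k ≤ Fintype.card V) (hε1 : ε ≤ 1 / 100)
    (hN : (Fintype.card V : ℝ) ^ 2 - ee G univ univ ≤ 10 * (ε ^ 2 / 100) * (k : ℝ) ^ 2) :
    ∃ W : Finset V, C2 G ε k W := by
  classical
  have hkr : (1 : ℝ) ≤ k := by exact_mod_cast hk
  have hkpos : (0 : ℝ) < k := by linarith
  set g : V → ℝ := fun v => (Fintype.card V : ℝ) - (nb G univ v).card with hg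
  have hg0 : ∀ v, 0 ≤ g v := fun v => by
    have h1 : (nb G univ v).card ≤ Fintype.card V := card_le_univ _
    have h2 : ((nb G univ v).card : ℝ) ≤ Fintype.card V := by exact_mod_cast h1
    simp only [hg]
    linarith
  have hgs : ∑ v, g v = (Fintype.card V : ℝ) ^ 2 - ee G univ univ := by
    simp only [hg]
    rw [sum_sub_distrib, sum_const, card_univ, nsmul_eq_mul]
    unfold ee
    push_cast
    ring
  set bad : Finset V := univ.filter (fun v => ε / 2 * k < g v) with hbad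
  set W : Finset V := univ.filter (fun v => ¬ ε / 2 * k < g v) with hW
  have hbW : bad.card + W.card = Fintype.card V := by
    rw [hbad, hW, card_filter_add_card_filter_not, card_univ]
  have h1 : (bad.card : ℝ) * (ε / 2 * k) ≤ 10 * (ε ^ 2 / 100) * (k : ℝ) ^ 2 := by
    calc (bad.card : ℝ) * (ε / 2 * k) = ∑ _v ∈ bad, (ε / 2 * k) := by
          rw [sum_const, nsmul_eq_mul]
      _ ≤ ∑ v ∈ bad, g v := sum_le_sum fun v hv => (mem_filter.1 hv).2.le
      _ ≤ ∑ v, g v := sum_le_sum_of_subset_of_nonneg (subset_univ _) fun v _ _ => hg0 v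
      _ ≤ _ := by rw [hgs]; exact hN
  have h2 : (bad.card : ℝ) ≤ ε / 5 * k := by
    have h3 : (bad.card : ℝ) * (ε / 2 * k) ≤ (ε / 5 * k) * (ε / 2 * k) := by
      refine h1.trans (le_of_eq ?_)
      ring
    exact le_of_mul_le_mul_right h3 (by positivity)
  have h4 : (bad.card : ℝ) + W.card = Fintype.card V := by exact_mod_cast hbW
  refine ⟨W, ?_, ?_⟩
  · have h5 : ε ^ 2 ≤ ε := by nlinarith
    nlinarith
  · intro w hw
    have h6 : g w ≤ ε / 2 * k := not_lt.1 (mem_filter.1 hw).2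
    have h7 : W.card + (nb G univ w).card ≤ (nb G W w).card + Fintype.card V := by
      have h8 : W.card = (nb G W w).card + (W.filter (fun v => ¬ G.Adj w v)).card := by
        unfold nb
        rw [card_filter_add_card_filter_not]
      have h9 : Fintype.card V = (nb G univ w).card +
          (univ.filter (fun v => ¬ G.Adj w v)).card := by
        unfold nb
        rw [card_filter_add_card_filter_not, card_univ]
      have h10 : (W.filter (fun v => ¬ G.Adj w v)).card ≤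
          (univ.filter (fun v => ¬ G.Adj w v)).card :=
        card_le_card (filter_subset_filter _ (subset_univ _))
      omega
    have h11 : (W.card : ℝ) + (nb G univ w).card ≤ (nb G W w).card + Fintype.card V := by
      exact_mod_cast h7
    simp only [hg] at h6
    nlinarith

theorem pf_CT2 (hFFA : T_FFA) (hFFB : T_FFB) : T_CT2 := by
  classical
  intro ε hε hε1
  refine ⟨ε ^ 2 / 100, max 1 ⌈3 / (ε ^ 2 / 100)⌉₊, by positivity, ?_⟩
  intro k hk V _ G hm1 hm2 hff
  have hk1 : 1 ≤ k := (le_max_left _ _).trans hk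
  have hk2 : 3 / (ε ^ 2 / 100) ≤ k := (Nat.le_ceil _).trans (by exact_mod_cast (le_max_right _ _).trans hk)
  obtain ⟨δ, hδ⟩ : ∃ δ : ℝ, δ = ε ^ 2 / 100 := ⟨_, rfl⟩
  have hδ0 : 0 < δ := by rw [hδ]; positivity
  have hδ1 : δ ≤ 1 / 100 := by
    rw [hδ]
    nlinarith
  have hkr : (1 : ℝ) ≤ k := by exact_mod_cast hk1
  have hkpos : (0 : ℝ) < k := by linarith
  rw [← hδ] at hk2 hm1 hm2 hff
  have hk3 : 3 ≤ δ * k := by
    rw [div_le_iff₀ hδ0] at hk2
    linarith
  have hm0 : 1 ≤ Fintype.card V := by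
    have h1 : (1 : ℝ) ≤ Fintype.card V := by nlinarith
    exact_mod_cast h1
  refine ct2_core G ε k hε hk1 (by rw [← hδ]; exact hm1) hε1 ?_
  rw [← hδ]
  obtain ⟨m, hm⟩ : ∃ m : ℕ, m = Fintype.card V := ⟨_, rfl⟩
  rw [← hm] at hm0 hm1 hm2 hff ⊢
  have hmr : (0 : ℝ) ≤ m := Nat.cast_nonneg _
  have e1 : δ * k * m ≤ δ * k * ((2 + δ) * k) := mul_le_mul_of_nonneg_left hm2 (by positivity)
  have e2 : δ * k * ((2 + δ) * k) ≤ 3 * (δ * (k : ℝ) ^ 2) := by
    have : 0 ≤ δ * (k : ℝ) ^ 2 := by positivity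
    nlinarith
  rcases le_or_gt m (2 * k + 1) with h | h
  · have h1 : ff k m = m * (m - 1) := (hFFB k m hk1 hm0).2.2 h
    have h2 : (ff k m : ℝ) = (m : ℝ) * ((m : ℝ) - 1) := by
      rw [h1]
      push_cast [Nat.cast_sub hm0]
      ring
    rw [h2] at hff
    have e3 : (m : ℝ) ≤ 3 * k := by nlinarith
    have e4 : 3 * (k : ℝ) ≤ δ * (k : ℝ) ^ 2 := by nlinarith
    nlinarith
  · have h1 : ff k (2 * k + 1) ≤ ff k m := ff_mono hFFA hk1 (by omega) h.le
    have h2 : ff k (2 * k + 1) = (2 * k + 1) * (2 * k + 1 - 1) :=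
      (hFFB k (2 * k + 1) hk1 (by omega)).2.2 le_rfl
    have h3 : (4 : ℝ) * (k : ℝ) ^ 2 ≤ ff k m := by
      have h4 : 4 * k ^ 2 ≤ ff k m := by
        rw [h2] at h1
        refine le_trans ?_ h1
        rw [Nat.add_sub_cancel]
        nlinarith
      exact_mod_cast h4
    have e5 : (m : ℝ) ^ 2 ≤ ((2 + δ) * k) ^ 2 := pow_le_pow_left₀ hmr hm2 2
    have e6 : ((2 + δ) * (k : ℝ)) ^ 2 ≤ 4 * (k : ℝ) ^ 2 + 5 * (δ * (k : ℝ) ^ 2) := by
      have : 0 ≤ δ * (k : ℝ) ^ 2 := by positivity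
      nlinarith
    nlinarith

end Pool.Agent.H23.VX
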