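import Pool.Agent.H30.VX.Targets

/-!
# Row HK of the board `vex_modules` (MP_d32443_co)
-/

set_option autoImplicit false

open Finset Pool.Agent.H48.CE Pool.Agent.H30.VR Pool.Agent.H30.VX

namespace Pool.Agent.H23.VX

theorem pf_HK (hSEG : T_SEG) : T_HK := by
  classical
  intro V G H B k hk hH hcn
  refine hasRun_of_cy (l := 2) fun i hi => ?_
  have h := hSEG G H B 0 (i + 2) (k + 1) (fun j => j.elim0) (fun j => j.elim0) (fun j => j.elim0)
    (fun j => j.elim0) (fun j => j.elim0) (fun j => j.elim0) (fun j => j.elim0)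
    (fun j => j.elim0) (fun j => j.elim0) (fun j => j.elim0) (fun j => j.elim0)
    (fun j => j.elim0) (by
      intro u hu v hv huv
      refine (hcn u hu v hv huv).trans (card_le_card ?_)
      intro w hw
      rw [mem_filter] at hw ⊢
      exact ⟨hw.1, hw.2, fun j => j.elim0⟩) (by omega) (by omega) (by omega)
  have e : (∑ j : Fin 0, ((fun j : Fin 0 => (j.elim0 : List V)) j).length) + 3 * 0 +
      2 * (i + 2) = 2 * 2 + 2 * i := by
    rw [Fin.sum_univ_zero]
    ring
  rw [e] at h
  exact h

end Pool.Agent.H23.VX
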