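import Pool.Agent.H30.VX.Targets

/-!
# Row OBP of the board `vex_modules` (MP_d32443_co)
-/

set_option autoImplicit false

open Finset Pool.Agent.H48.CE Pool.Agent.H30.VR Pool.Agent.H30.VX

namespace Pool.Agent.H23.VX

open scoped Classical in
theorem obp_aux {V : Type} (G : SimpleGraph V) (A B : Finset V) (d : ℝ) (t : ℕ)
    (hd : 0 < d) (ht : 1 ≤ t) (hLR : LR G d t A B) (P Q : Finset V)
    (hcov : ∀ x, x ∈ P ∨ x ∈ Q)
    (hsep : ∀ x ∈ P, x ∉ Q → ∀ y ∈ Q, y ∉ P → ¬ G.Adj x y) :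
    (A.filter (fun v => v ∉ Q)).card < t ∨ (B.filter (fun v => v ∉ P)).card < t := by
  by_contra hcon
  push Not at hcon
  obtain ⟨h1, h2⟩ := hcon
  have h3 := hLR _ (filter_subset (fun v => v ∉ Q) A) _ (filter_subset (fun v => v ∉ P) B) h1 h2
  have h4 : ee G (A.filter (fun v => v ∉ Q)) (B.filter (fun v => v ∉ P)) = 0 := by
    unfold ee
    refine sum_eq_zero fun a ha => ?_
    rw [card_eq_zero, eq_empty_iff_forall_notMem]
    intro b hb
    rw [mem_nb, mem_filter] at hb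
    rw [mem_filter] at ha
    exact hsep a ((hcov a).resolve_right ha.2) ha.2 b ((hcov b).resolve_left hb.1.2) hb.1.2 hb.2
  rw [h4] at h3
  have h5 : (0 : ℝ) < ((A.filter (fun v => v ∉ Q)).card : ℝ) := by
    exact_mod_cast lt_of_lt_of_le ht h1
  have h6 : (0 : ℝ) < ((B.filter (fun v => v ∉ P)).card : ℝ) := by
    exact_mod_cast lt_of_lt_of_le ht h2
  have h7 : 0 < d * ((A.filter (fun v => v ∉ Q)).card : ℝ) *
      ((B.filter (fun v => v ∉ P)).card : ℝ) := by positivity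
  push_cast at h3
  linarith

open scoped Classical in
theorem obp_card {V : Type} (A P Q : Finset V) (r t : ℕ) (hA : A.card = r * t) (ht : 1 ≤ t)
    (hr : 4 ≤ r) (hcov : ∀ x, x ∈ P ∨ x ∈ Q) (hPQ : (P.filter (fun x => x ∈ Q)).card ≤ 2)
    (h1 : (A.filter (fun v => v ∉ P)).card < t) (h2 : (A.filter (fun v => v ∉ Q)).card < t) :
    False := by
  have h3 : A ⊆ (A.filter (fun v => v ∉ P)) ∪ (A.filter (fun v => v ∉ Q)) ∪
      (P.filter (fun x => x ∈ Q)) := by
    intro x hx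
    simp only [mem_union, mem_filter]
    by_cases h : x ∈ P
    · by_cases h' : x ∈ Q
      · exact Or.inr ⟨h, h'⟩
      · exact Or.inl (Or.inr ⟨hx, h'⟩)
    · exact Or.inl (Or.inl ⟨hx, h⟩)
  have h4 := card_le_card h3
  have h5 := card_union_le ((A.filter (fun v => v ∉ P)) ∪ (A.filter (fun v => v ∉ Q)))
    (P.filter (fun x => x ∈ Q))
  have h6 := card_union_le (A.filter (fun v => v ∉ P)) (A.filter (fun v => v ∉ Q))
  have h7 : 4 * t ≤ r * t := Nat.mul_le_mul_right t hr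
  omega

theorem pf_OBP : T_OBP := by
  classical
  intro V G A B d r t hLP hd ht hr P Q hS
  obtain ⟨hcov, hsep, hPQ⟩ := hS
  have a1 := obp_aux G A B d t hd ht hLP.lr P Q hcov hsep
  have a2 := obp_aux G A B d t hd ht hLP.lr Q P (fun x => (hcov x).symm)
    (fun x hx hx' y hy hy' hadj => hsep y hy hy' x hx hx' hadj.symm)
  have b1 := obp_card A P Q r t hLP.ca ht hr hcov hPQ
  have b2 := obp_card B P Q r t hLP.cb ht hr hcov hPQ
  rcases a1 with h1 | h1 <;> rcases a2 with h2 | h2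
  · exact (b1 h2 h1).elim
  · exact Or.inr ⟨h1, h2⟩
  · exact Or.inl ⟨h2, h1⟩
  · exact (b2 h1 h2).elim

end Pool.Agent.H23.VX
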